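import Pool.Agent.Y320.CM.Stm

/-!
# Project CM: the action on triples of boundary points is cocompact
-/

set_option autoImplicit false
open Filter Topology

namespace Pool.Agent.Y970.CM
open Pool.Agent.Y320.CM

variable {G : Type} [Group G] {d : G → G → ℝ} {δ : ℝ}

lemma gp_comm (h : HypD G d δ) (w x y : G) : gp d w x y = gp d w y x := by
  unfold gp; rw [h.symm x y]; ring

lemma gp_left (h : HypD G d δ) (g w x y : G) : gp d (g * w) (g * x) (g * y) = gp d w x y := by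
  unfold gp; rw [h.left, h.left, h.left]

lemma gp_left' (h : HypD G d δ) (m x y : G) : gp d 1 (m⁻¹ * x) (m⁻¹ * y) = gp d m x y := by
  have := gp_left h m⁻¹ m x y
  rwa [inv_mul_cancel] at this

lemma gp_base (h : HypD G d δ) (m a b : G) : gp d 1 a b - d 1 m ≤ gp d m a b := by
  unfold gp
  have h1 := h.tri 1 m a
  have h2 := h.tri 1 m b
  linarith

lemma center (h : HypD G d δ) (x y z : G) :
    ∃ m, gp d m x y ≤ δ + 1 ∧ gp d m y z ≤ δ + 1 ∧ gp d m x z ≤ δ + 1 := by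
  have hg0 : 0 ≤ gp d x y z := by
    unfold gp
    have := h.tri y x z
    rw [h.symm y x] at this
    linarith
  have hgle : gp d x y z ≤ d x y := by
    unfold gp
    have := h.tri x y z
    linarith
  have hk := Nat.floor_le hg0
  have hk2 := Nat.lt_floor_add_one (gp d x y z)
  obtain ⟨m, h1, h2⟩ := h.geo x y ⌊gp d x y z⌋₊ (hk.trans hgle)
  set k : ℝ := (⌊gp d x y z⌋₊ : ℝ) with hkdef
  have h1' : d m x = k := by rw [h.symm, h1]
  have e0 : gp d m x y = 0 := by unfold gp; rw [h1', h2]; ring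
  have e1 : gp d m x z - gp d m y z = k - gp d x y z := by
    unfold gp; rw [h1', h2]; ring
  have h3 := h.hyp m x z y
  rw [e0, gp_comm h m z y] at h3
  have h4 := h.nonneg
  refine ⟨m, by rw [e0]; linarith, ?_, ?_⟩
  · rcases min_cases (gp d m x z) (gp d m y z) with ⟨h5, h6⟩ | ⟨h5, h6⟩ <;> rw [h5] at h3 <;> linarith
  · rcases min_cases (gp d m x z) (gp d m y z) with ⟨h5, h6⟩ | ⟨h5, h6⟩ <;> rw [h5] at h3 <;> linarith

lemma near_aux (h : HypD G d δ) {C : ℝ} {m x y : G} (hxy : gp d 1 x y ≤ C)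
    (hx : gp d m 1 x ≤ 2 * δ + 1) (hy : gp d m 1 y ≤ 2 * δ + 1) : d 1 m ≤ C + 4 * δ + 2 := by
  unfold gp at hxy hx hy
  have h1 := h.tri x m y
  rw [h.symm x m] at h1
  rw [h.symm m 1] at hx hy
  linarith

lemma center_near (h : HypD G d δ) {C : ℝ} {m x y z : G}
    (h1 : gp d m x y ≤ δ + 1) (h2 : gp d m y z ≤ δ + 1) (h3 : gp d m x z ≤ δ + 1)
    (g1 : gp d 1 x y ≤ C) (g2 : gp d 1 y z ≤ C) (g3 : gp d 1 x z ≤ C) :
    d 1 m ≤ C + 4 * δ + 2 := by
  have k1 := h.hyp m x 1 y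
  have k2 := h.hyp m y 1 z
  have k3 := h.hyp m x 1 z
  rw [gp_comm h m x 1] at k1 k3
  rw [gp_comm h m y 1] at k2
  have m1 : gp d m 1 x ≤ 2 * δ + 1 ∨ gp d m 1 y ≤ 2 * δ + 1 := by
    rw [← min_le_iff]; linarith
  have m2 : gp d m 1 y ≤ 2 * δ + 1 ∨ gp d m 1 z ≤ 2 * δ + 1 := by
    rw [← min_le_iff]; linarith
  have m3 : gp d m 1 x ≤ 2 * δ + 1 ∨ gp d m 1 z ≤ 2 * δ + 1 := by
    rw [← min_le_iff]; linarith
  rcases m1 with a | a
  · rcases m2 with b | b
    · exact near_aux h g1 a b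
    · exact near_aux h g3 a b
  · rcases m3 with b | b
    · exact near_aux h g1 b a
    · exact near_aux h g2 a b

lemma bounded (h : HypD G d δ) {φ : (ℕ → G) → Sph} (hB : Bd d φ) {x y : ℕ → G}
    (hx : CI d x) (hy : CI d y) (hne : φ x ≠ φ y) :
    ∃ C : ℝ, ∃ M : ℕ, ∀ i j, M ≤ i → M ≤ j → gp d 1 (x i) (y j) ≤ C := by
  have h1 : ¬ ∀ K : ℝ, Near d K x y := fun h' => hne ((hB.eqv x y hx hy).2 h')
  push Not at h1
  obtain ⟨K, hK⟩ := h1
  unfold Near at hK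
  push Not at hK
  obtain ⟨M1, hM1⟩ := hx (K + 2 * δ + 1)
  obtain ⟨M2, hM2⟩ := hy (K + 2 * δ + 1)
  refine ⟨K + 2 * δ, max M1 M2, fun i j hi hj => ?_⟩
  obtain ⟨i0, j0, hi0, hj0, h0⟩ := hK (max M1 M2)
  by_contra hc
  push Not at hc
  have a1 := hM1 i0 i ((le_max_left _ _).trans hi0) ((le_max_left _ _).trans hi)
  have a2 := hM2 j j0 ((le_max_right _ _).trans hj) ((le_max_right _ _).trans hj0)
  have b1 := h.hyp 1 (x i0) (x i) (y j0)
  have b2 := h.hyp 1 (x i) (y j) (y j0)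
  have hδ := h.nonneg
  have c2 : K + 2 * δ < min (gp d 1 (x i) (y j)) (gp d 1 (y j) (y j0)) :=
    lt_min hc (by linarith)
  have c1 : K + δ < min (gp d 1 (x i0) (x i)) (gp d 1 (x i) (y j0)) :=
    lt_min (by linarith) (by linarith)
  linarith

/-- after moving the centre to `1` all Gromov products are small -/
lemma move_aux (h : HypD G d δ) {C : ℝ} (hC : 0 ≤ C) {m a b x y : G}
    (h1 : gp d m a b ≤ δ + 1) (hm : d 1 m ≤ C + 4 * δ + 2)
    (hax : 2 * C + 20 * δ + 20 ≤ gp d 1 a x) (hby : 2 * C + 20 * δ + 20 ≤ gp d 1 b y) :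
    gp d m x y ≤ 3 * δ + 1 := by
  by_contra hc
  push Not at hc
  have hδ := h.nonneg
  have a1 := gp_base h m a x
  have a2 := gp_base h m b y
  have b1 := h.hyp m a x b
  have b2 := h.hyp m x y b
  rw [gp_comm h m y b] at b2
  have c2 : 3 * δ + 1 < min (gp d m x y) (gp d m b y) := lt_min hc (by linarith)
  have c1 : 2 * δ + 1 < min (gp d m a x) (gp d m x b) := lt_min (by linarith) (by linarith)
  linarith

/-- sequences with bounded Gromov products have limits at distance at least `c` -/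
lemma apart (h : HypD G d δ) {φ : (ℕ → G) → Sph} (hB : Bd d φ) :
    ∃ c : ℝ, 0 < c ∧ ∀ u v : ℕ → G, CI d u → CI d v →
      (∃ M : ℕ, ∀ i j, M ≤ i → M ≤ j → gp d 1 (u i) (v j) ≤ 3 * δ + 1) → c ≤ dist (φ u) (φ v) := by
  by_contra hcon
  push Not at hcon
  choose u v hu hv hb hd using fun n : ℕ => hcon (1 / ((n : ℝ) + 1)) (by positivity)
  obtain ⟨p, -, s, hs, hp⟩ := (isCompact_univ : IsCompact (Set.univ : Set Sph)).tendsto_subseq
    (x := fun n => φ (u n)) (fun n => Set.mem_univ _)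
  obtain ⟨r, hr, rfl⟩ := hB.surj p
  have h1 : Tendsto (fun n => φ (u (s n))) atTop (𝓝 (φ r)) := hp
  have h2 : Tendsto (fun n => φ (v (s n))) atTop (𝓝 (φ r)) := by
    refine tendsto_of_tendsto_of_dist h1 ?_
    have h3 : Tendsto (fun n : ℕ => 1 / ((s n : ℝ) + 1)) atTop (𝓝 0) :=
      tendsto_one_div_add_atTop_nhds_zero_nat.comp hs.tendsto_atTop
    exact squeeze_zero (fun n => dist_nonneg) (fun n => (hd (s n)).le) h3
  have k1 := (hB.top (fun n => u (s n)) r (fun n => hu _) hr).1 h1 (4 * δ + 2)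
  have k2 := (hB.top (fun n => v (s n)) r (fun n => hv _) hr).1 h2 (4 * δ + 2)
  obtain ⟨n, ⟨M1, h3⟩, ⟨M2, h4⟩⟩ := (k1.and k2).exists
  obtain ⟨M3, h5⟩ := hb (s n)
  set M := max M1 (max M2 M3) with hM
  have l1 : M1 ≤ M := le_max_left _ _
  have l2 : M2 ≤ M := (le_max_left _ _).trans (le_max_right _ _)
  have l3 : M3 ≤ M := (le_max_right _ _).trans (le_max_right _ _)
  have e1 := h3 M M l1 l1
  have e2 := h4 M M l2 l2
  have e3 := h5 M M l3 l3
  have e4 := h.hyp 1 (u (s n) M) (r M) (v (s n) M)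
  rw [gp_comm h 1 (r M)] at e4
  have e5 : 4 * δ + 2 ≤ min (gp d 1 (u (s n) M) (r M)) (gp d 1 (v (s n) M) (r M)) := le_min e1 e2
  linarith

theorem t_COC (hA : S_ACTC) : S_COC := by
  intro G _ d δ φ τ h hB hE
  obtain ⟨c, hc, hap⟩ := apart h hB
  obtain ⟨hCI, -, -, -⟩ := hA G d δ φ τ h hB hE
  refine ⟨c, hc, ?_⟩
  intro a b e hab hae hbe
  obtain ⟨x, hx, rfl⟩ := hB.surj a
  obtain ⟨y, hy, rfl⟩ := hB.surj b
  obtain ⟨z, hz, rfl⟩ := hB.surj e
  obtain ⟨C1, M1, hM1⟩ := bounded h hB hx hy hab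
  obtain ⟨C2, M2, hM2⟩ := bounded h hB hx hz hae
  obtain ⟨C3, M3, hM3⟩ := bounded h hB hy hz hbe
  set C : ℝ := max 0 (max C1 (max C2 C3)) with hCdef
  have hC0 : 0 ≤ C := le_max_left _ _
  have hC1 : C1 ≤ C := (le_max_left _ _).trans (le_max_right _ _)
  have hC2 : C2 ≤ C := ((le_max_left _ _).trans (le_max_right _ _)).trans (le_max_right _ _)
  have hC3 : C3 ≤ C := ((le_max_right _ _).trans (le_max_right _ _)).trans (le_max_right _ _)
  obtain ⟨N1, hN1⟩ := hx (2 * C + 20 * δ + 20)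
  obtain ⟨N2, hN2⟩ := hy (2 * C + 20 * δ + 20)
  obtain ⟨N3, hN3⟩ := hz (2 * C + 20 * δ + 20)
  set M : ℕ := M1 + M2 + M3 + N1 + N2 + N3 with hM
  obtain ⟨m, c1, c2, c3⟩ := center h (x M) (y M) (z M)
  have hm := center_near h c1 c2 c3 ((hM1 M M (by omega) (by omega)).trans hC1)
    ((hM3 M M (by omega) (by omega)).trans hC3) ((hM2 M M (by omega) (by omega)).trans hC2)
  refine ⟨m⁻¹, ?_, ?_, ?_⟩
  · rw [hE _ _ hx, hE _ _ hy]
    refine hap _ _ (hCI _ _ hx) (hCI _ _ hy) ⟨M, fun i j hi hj => ?_⟩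
    rw [gp_left' h]
    exact move_aux h hC0 c1 hm (hN1 M i (by omega) (by omega)) (hN2 M j (by omega) (by omega))
  · rw [hE _ _ hx, hE _ _ hz]
    refine hap _ _ (hCI _ _ hx) (hCI _ _ hz) ⟨M, fun i j hi hj => ?_⟩
    rw [gp_left' h]
    exact move_aux h hC0 c3 hm (hN1 M i (by omega) (by omega)) (hN3 M j (by omega) (by omega))
  · rw [hE _ _ hy, hE _ _ hz]
    refine hap _ _ (hCI _ _ hy) (hCI _ _ hz) ⟨M, fun i j hi hj => ?_⟩
    rw [gp_left' h]
    exact move_aux h hC0 c2 hm (hN2 M i (by omega) (by omega)) (hN3 M j (by omega) (by omega))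

end Pool.Agent.Y970.CM
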